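import Pool.Agent.LPR.Stmts

set_option autoImplicit false

open Set Topology
open scoped BigOperators

namespace Pool.Agent.LPR.H60

open Pool.Agent.LSG Pool.Agent.LPR

/-- `A × OnePoint ℕ` together with `X × {∞}` -/
def Ap {X : Type} (A : Set X) : Set (X × OnePoint ℕ) := {y | y.1 ∈ A ∨ y.2 = OnePoint.infty}

open Classical in
/-- extension by zero -/
noncomputable def ex {X : Type} (A : Set X) (F : ↥A × OnePoint ℕ → ℝ) (y : ↥(Ap A)) : ℝ :=
  if h : y.1.1 ∈ A then F (⟨y.1.1, h⟩, y.1.2) else 0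

theorem ex_pos {X : Type} (A : Set X) (F : ↥A × OnePoint ℕ → ℝ) (y : ↥(Ap A)) (h : y.1.1 ∈ A) :
    ex A F y = F (⟨y.1.1, h⟩, y.1.2) := dif_pos h

theorem ex_neg {X : Type} (A : Set X) (F : ↥A × OnePoint ℕ → ℝ) (y : ↥(Ap A)) (h : y.1.1 ∉ A) :
    ex A F y = 0 := dif_neg h

theorem ex_cont {X : Type} [TopologicalSpace X] [T1Space X] {A : Set X} (hA : IsClosed A)
    {F : ↥A × OnePoint ℕ → ℝ} (hF : Continuous F) (h0 : ∀ a, F (a, OnePoint.infty) = 0) :
    Continuous (ex A F) := by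
  have c1 : Continuous (fun y : ↥(Ap A) => y.1.1) := continuous_fst.comp continuous_subtype_val
  have c2 : Continuous (fun y : ↥(Ap A) => y.1.2) := continuous_snd.comp continuous_subtype_val
  have hC1 : IsClosed {y : ↥(Ap A) | y.1.1 ∈ A} := hA.preimage c1
  have hC2 : IsClosed {y : ↥(Ap A) | y.1.2 = OnePoint.infty} :=
    (isClosed_singleton (x := (OnePoint.infty : OnePoint ℕ))).preimage c2
  have hu : {y : ↥(Ap A) | y.1.1 ∈ A} ∪ {y : ↥(Ap A) | y.1.2 = OnePoint.infty} = univ := by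
    ext y
    exact ⟨fun _ => trivial, fun _ => y.2⟩
  rw [← continuousOn_univ, ← hu]
  refine ContinuousOn.union_of_isClosed ?_ ?_ hC1 hC2
  · rw [continuousOn_iff_continuous_domRestrict]
    have : ({y : ↥(Ap A) | y.1.1 ∈ A}).domRestrict (ex A F) =
        fun z => F (⟨z.1.1.1, z.2⟩, z.1.1.2) := by
      funext z
      exact ex_pos A F z.1 z.2
    rw [this]
    refine hF.comp (Continuous.prodMk ?_ (c2.comp continuous_subtype_val))
    exact Continuous.subtype_mk (c1.comp continuous_subtype_val) _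
  · have h1 : ∀ y ∈ {y : ↥(Ap A) | y.1.2 = OnePoint.infty}, ex A F y = (fun _ => (0 : ℝ)) y := by
      intro y hy
      by_cases h : y.1.1 ∈ A
      · rw [ex_pos A F y h]
        have h2 : y.1.2 = OnePoint.infty := hy
        rw [h2]
        exact h0 _
      · exact ex_neg A F y h
    exact continuousOn_const.congr h1

theorem ex_add {X : Type} (A : Set X) (F G : ↥A × OnePoint ℕ → ℝ) (y : ↥(Ap A)) :
    ex A (F + G) y = ex A F y + ex A G y := by
  by_cases h : y.1.1 ∈ A
  · rw [ex_pos A _ y h, ex_pos A _ y h, ex_pos A _ y h]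
    rfl
  · rw [ex_neg A _ y h, ex_neg A _ y h, ex_neg A _ y h, add_zero]

theorem ex_smul {X : Type} (A : Set X) (c : ℝ) (F : ↥A × OnePoint ℕ → ℝ) (y : ↥(Ap A)) :
    ex A (c • F) y = c * ex A F y := by
  by_cases h : y.1.1 ∈ A
  · rw [ex_pos A _ y h, ex_pos A _ y h]
    rfl
  · rw [ex_neg A _ y h, ex_neg A _ y h, mul_zero]

/-- extension by zero as a continuous linear map -/
noncomputable def exL {X : Type} [TopologicalSpace X] [T1Space X] {A : Set X} (hA : IsClosed A) :
    ↥(Cz ↥A) →L[ℝ] ↥(Cp ↥(Ap A)) where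
  toFun F := ⟨ex A F.1, ex_cont hA F.2.1 F.2.2⟩
  map_add' F G := Subtype.ext (funext fun y => ex_add A F.1 G.1 y)
  map_smul' c F := Subtype.ext (funext fun y => ex_smul A c F.1 y)
  cont := by
    refine Continuous.subtype_mk (continuous_pi fun y => ?_) _
    by_cases h : y.1.1 ∈ A
    · have : (fun F : ↥(Cz ↥A) => ex A F.1 y) =
          fun F : ↥(Cz ↥A) => F.1 (⟨y.1.1, h⟩, y.1.2) := by
        funext F
        exact ex_pos A F.1 y h
      show Continuous (fun F : ↥(Cz ↥A) => ex A F.1 y)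
      rw [this]
      exact (continuous_apply _).comp continuous_subtype_val
    · have : (fun F : ↥(Cz ↥A) => ex A F.1 y) = fun _ => 0 := by
        funext F
        exact ex_neg A F.1 y h
      show Continuous (fun F : ↥(Cz ↥A) => ex A F.1 y)
      rw [this]
      exact continuous_const

theorem czd (hDug : DugStmt) : CzdStmt := by
  intro X _ _ A hA
  have hc : IsClosed (Ap A) :=
    (hA.preimage continuous_fst).union
      ((isClosed_singleton (x := (OnePoint.infty : OnePoint ℕ))).preimage continuous_snd)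
  obtain ⟨φ, hφ⟩ := hDug (X × OnePoint ℕ) (Ap A) hc
  let ψ : ↥(Cz ↥A) →L[ℝ] ↥(Cp (X × OnePoint ℕ)) := φ.comp (exL hA)
  have hψ : ∀ (F : ↥(Cz ↥A)) (y : ↥(Ap A)), (ψ F).1 y.1 = ex A F.1 y := fun F y => hφ _ y
  have h0 : ∀ (F : ↥(Cz ↥A)) (x : X), (ψ F).1 (x, OnePoint.infty) = 0 := by
    intro F x
    have h1 := hψ F ⟨(x, OnePoint.infty), Or.inr rfl⟩
    rw [h1]
    by_cases h : x ∈ A
    · exact (ex_pos A F.1 ⟨(x, OnePoint.infty), Or.inr rfl⟩ h).trans (F.2.2 _)
    · exact ex_neg A F.1 ⟨(x, OnePoint.infty), Or.inr rfl⟩ h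
  let i : ↥(Cz ↥A) →L[ℝ] ↥(Cz X) :=
    { toFun := fun F => ⟨(ψ F).1, (ψ F).2, h0 F⟩
      map_add' := fun F G => Subtype.ext (by
        show (ψ (F + G)).1 = (ψ F).1 + (ψ G).1
        rw [map_add]
        rfl)
      map_smul' := fun c F => Subtype.ext (by
        show (ψ (c • F)).1 = c • (ψ F).1
        rw [map_smul]
        rfl)
      cont := Continuous.subtype_mk (continuous_subtype_val.comp ψ.continuous) _ }
  let p : ↥(Cz X) →L[ℝ] ↥(Cz ↥A) :=
    { toFun := fun f => ⟨fun y => f.1 (y.1.1, y.2),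
        f.2.1.comp (Continuous.prodMk (continuous_subtype_val.comp continuous_fst) continuous_snd),
        fun a => f.2.2 a.1⟩
      map_add' := fun f g => rfl
      map_smul' := fun c f => rfl
      cont := by
        refine Continuous.subtype_mk
          (f := fun f : ↥(Cz X) => fun y : ↥A × OnePoint ℕ => f.1 (y.1.1, y.2))
          (continuous_pi fun y => ?_) _
        exact (continuous_apply (y.1.1, y.2)).comp continuous_subtype_val }
  refine ⟨i, p, fun F => Subtype.ext (funext fun y => ?_)⟩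
  show (ψ F).1 (y.1.1, y.2) = F.1 y
  have h1 := hψ F ⟨(y.1.1, y.2), Or.inl y.1.2⟩
  exact h1.trans (ex_pos A F.1 ⟨(y.1.1, y.2), Or.inl y.1.2⟩ y.1.2)

end Pool.Agent.LPR.H60
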